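import Mathlib

set_option autoImplicit false

open MeasureTheory Filter Topology Set

namespace Pool.Agent.Results.MP_ee56ef_an.Main

/-- The achievement set (set of all subsums) of a sequence of reals. -/
def achievementSet (x : ℕ → ℝ) : Set ℝ :=
  {s | ∃ A : Set ℕ, s = ∑' j, A.indicator x j}

/-- The multigeometric series `(k₁, …, k_m; 1/n)`: its terms are
`k₁ n⁻¹, …, k_m n⁻¹, k₁ n⁻², …, k_m n⁻², …` (indices from `0`). -/
noncomputable def multigeometric (n m : ℕ) (hm : 0 < m) (k : Fin m → ℕ) (j : ℕ) : ℝ :=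
  (k ⟨j % m, Nat.mod_lt j hm⟩ : ℝ) / (n : ℝ) ^ (j / m + 1)

/-- The set `Σ` of distinct subsums of `k₁, …, k_m`. -/
def subsums (m : ℕ) (k : Fin m → ℕ) : Finset ℕ :=
  Finset.univ.image (fun S : Finset (Fin m) => ∑ i ∈ S, k i)

/-! ### the example `(1, 1, 18, 18, 18; 1/12)` -/

def kk : Fin 5 → ℕ := ![1, 1, 18, 18, 18]

noncomputable def xx : ℕ → ℝ := multigeometric 12 5 (by norm_num) kk

lemma xx_nonneg (j : ℕ) : 0 ≤ xx j := by
  unfold xx multigeometric; positivity

lemma kk_le (i : Fin 5) : kk i ≤ 18 := by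
  fin_cases i <;> simp [kk]

lemma xx_shift (j : ℕ) : xx (j + 5) = xx j / 12 := by
  unfold xx multigeometric
  have h1 : (j + 5) / 5 = j / 5 + 1 := by omega
  have h2 : (j + 5) % 5 = j % 5 := by omega
  simp only [h1, h2]
  push_cast
  rw [pow_succ (12 : ℝ) (j / 5 + 1)]
  field_simp

lemma xx_summable : Summable xx := by
  -- compare with `18 * (12^(1/5))^{-j}` through blocks of five
  have hb : ∀ j, xx j ≤ 18 * ((1 / 12 : ℝ)) ^ (j / 5) := by
    intro j
    unfold xx multigeometric
    have h1 : (kk ⟨j % 5, Nat.mod_lt j (by norm_num)⟩ : ℝ) ≤ 18 := by exact_mod_cast kk_le _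
    have h2 : (0 : ℝ) < 12 ^ (j / 5) := by positivity
    rw [one_div, inv_pow, pow_succ, div_le_iff₀ (by positivity)]
    push_cast
    have : (18 : ℝ) * ((12 : ℝ) ^ (j / 5))⁻¹ * (12 ^ (j / 5) * 12) = 18 * 12 := by
      field_simp
    rw [this]
    linarith
  have hs : Summable (fun j : ℕ => 18 * ((1 / 12 : ℝ)) ^ (j / 5)) := by
    apply Summable.mul_left
    have h5 : ∀ r < 5, Summable (fun q : ℕ => (1 / 12 : ℝ) ^ ((5 * q + r) / 5)) := by
      intro r hr
      have : (fun q : ℕ => (1 / 12 : ℝ) ^ ((5 * q + r) / 5)) = fun q : ℕ => (1 / 12 : ℝ) ^ q := by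
        funext q
        congr 1
        omega
      rw [this]
      exact summable_geometric_of_lt_one (by norm_num) (by norm_num)
    have key : Summable (fun p : ℕ × Fin 5 => (1 / 12 : ℝ) ^ ((5 * p.1 + p.2.1) / 5)) := by
      rw [← (Equiv.prodComm (Fin 5) ℕ).summable_iff]
      rw [summable_prod_of_nonneg (fun p => by
        show (0 : ℝ) ≤ (1 / 12 : ℝ) ^ _
        positivity)]
      refine ⟨fun r => ?_, ?_⟩
      · exact h5 r.1 r.2
      · exact (hasSum_fintype _).summable
    have e : Summable ((fun j : ℕ => (1 / 12 : ℝ) ^ (j / 5)) ∘ (Nat.divModEquiv 5).symm) := by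
      convert key using 1
      funext p
      simp [Nat.divModEquiv, mul_comm]
    exact (Equiv.summable_iff _).mp e
  exact Summable.of_nonneg_of_le xx_nonneg hb hs

/-- digits -/
def dig (c : Fin 12) : ℕ := c.1 % 3 + 18 * (c.1 / 3)

def blk (c : Fin 12) (j : ℕ) : Prop :=
  (j = 0 ∧ 1 ≤ c.1 % 3) ∨ (j = 1 ∧ 2 ≤ c.1 % 3) ∨ (j = 2 ∧ 1 ≤ c.1 / 3) ∨ (j = 3 ∧ 2 ≤ c.1 / 3) ∨
    (j = 4 ∧ 3 ≤ c.1 / 3)

lemma indicator_summable (A : Set ℕ) : Summable (A.indicator xx) := xx_summable.indicator A

lemma zero_mem : (0 : ℝ) ∈ achievementSet xx := ⟨∅, by simp⟩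

lemma selfsim (s : ℝ) (hs : s ∈ achievementSet xx) (c : Fin 12) :
    (s + dig c) / 12 ∈ achievementSet xx := by
  classical
  obtain ⟨A, rfl⟩ := hs
  refine ⟨{j | (j < 5 ∧ blk c j) ∨ (5 ≤ j ∧ j - 5 ∈ A)}, ?_⟩
  set A' : Set ℕ := {j | (j < 5 ∧ blk c j) ∨ (5 ≤ j ∧ j - 5 ∈ A)} with hA'
  rw [← (indicator_summable A').sum_add_tsum_nat_add 5]
  have h1 : ∀ j, A'.indicator xx (j + 5) = A.indicator xx j / 12 := by
    intro j
    by_cases hj : j ∈ A
    · rw [Set.indicator_of_mem hj, Set.indicator_of_mem, xx_shift]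
      right
      exact ⟨by omega, by simpa using hj⟩
    · rw [Set.indicator_of_notMem hj, Set.indicator_of_notMem, zero_div]
      rintro (h | h)
      · omega
      · exact hj (by simpa using h.2)
  simp_rw [h1]
  rw [tsum_div_const]
  have h2 : ∑ i ∈ Finset.range 5, A'.indicator xx i = (dig c : ℝ) / 12 := by
    have hx : ∀ i < 5, A'.indicator xx i = if blk c i then xx i else 0 := by
      intro i hi
      by_cases h : blk c i
      · rw [if_pos h, Set.indicator_of_mem]
        exact Or.inl ⟨hi, h⟩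
      · rw [if_neg h, Set.indicator_of_notMem]
        rintro (h' | h')
        · exact h h'.2
        · omega
    rw [Finset.sum_congr rfl (fun i hi => hx i (Finset.mem_range.mp hi))]
    simp only [Finset.sum_range_succ, Finset.sum_range_zero]
    fin_cases c <;> norm_num [blk, dig, xx, multigeometric, kk]
  rw [h2]
  ring

/-- integer value of a digit string -/
def val : (K : ℕ) → (Fin K → Fin 12) → ℤ := fun K c => ∑ j : Fin K, 12 ^ (j : ℕ) * (dig (c j) : ℤ)

lemma val_mem (K : ℕ) (c : Fin K → Fin 12) : ((val K c : ℤ) : ℝ) / 12 ^ K ∈ achievementSet xx := by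
  induction K with
  | zero => simpa [val] using zero_mem
  | succ K ih =>
    have h := selfsim _ (ih (fun j => c j.castSucc)) (c (Fin.last K))
    convert h using 1
    unfold val
    rw [Fin.sum_univ_castSucc]
    push_cast
    simp only [Fin.val_castSucc]
    rw [pow_succ]
    field_simp

lemma val_inj_aux (K : ℕ) (e : ℤ) (he : e = -1 ∨ e = 0 ∨ e = 1) (c c' : Fin K → Fin 12)
    (h : 3 * e + val K c = val K c') : e = 0 ∧ c = c' := by
  induction K generalizing e with
  | zero =>
    simp only [val, Finset.univ_eq_empty, Finset.sum_empty, add_zero] at h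
    exact ⟨by omega, Subsingleton.elim _ _⟩
  | succ K ih =>
    have hv : ∀ c : Fin (K + 1) → Fin 12, val (K + 1) c = dig (c 0) + 12 * val K (fun j => c j.succ) := by
      intro c
      unfold val
      rw [Fin.sum_univ_succ]
      simp only [Fin.val_zero, pow_zero, one_mul, Fin.val_succ]
      rw [Finset.mul_sum]
      congr 1
      apply Finset.sum_congr rfl
      intro j _
      rw [pow_succ]; ring
    rw [hv, hv] at h
    set u := val K (fun j => c j.succ)
    set v := val K (fun j => c' j.succ)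
    have hd : ∀ a : Fin 12, (dig a : ℤ) = (a.1 % 3 : ℕ) + 18 * (a.1 / 3 : ℕ) := by
      intro a; unfold dig; push_cast; ring
    have b0 := (c 0).2
    have b1 := (c' 0).2
    rw [hd, hd] at h
    have k1 : (c 0).1 % 3 = (c' 0).1 % 3 := by omega
    have k2 : e = 0 := by omega
    have k3 : ∃ f : ℤ, (f = -1 ∨ f = 0 ∨ f = 1) ∧ 3 * f + u = v ∧
        (((c 0).1 / 3 : ℕ) : ℤ) - (((c' 0).1 / 3 : ℕ) : ℤ) = 2 * f := by
      refine ⟨((((c 0).1 / 3 : ℕ) : ℤ) - (((c' 0).1 / 3 : ℕ) : ℤ)) / 2, ?_, ?_, ?_⟩ <;> omega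
    obtain ⟨f, hf, hf1, hf2⟩ := k3
    obtain ⟨g1, g2⟩ := ih f hf _ _ hf1
    refine ⟨k2, ?_⟩
    funext j
    refine Fin.cases ?_ (fun i => ?_) j
    · apply Fin.ext
      omega
    · exact congrFun g2 i

lemma val_inj (K : ℕ) : Function.Injective (val K) := by
  intro c c' h
  exact (val_inj_aux K 0 (by simp) c c' (by simpa using h)).2

lemma compact_E : IsCompact (achievementSet xx) := by
  classical
  have hc : Continuous (fun e : ℕ → Bool => ∑' j, (if e j then xx j else 0)) := by
    refine continuous_tsum (u := xx) (fun j => ?_) xx_summable (fun j e => ?_)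
    · have : Continuous (fun b : Bool => if b then xx j else 0) := continuous_of_discreteTopology
      exact this.comp (continuous_apply j)
    · split_ifs
      · rw [Real.norm_eq_abs, abs_of_nonneg (xx_nonneg j)]
      · rw [norm_zero]; exact xx_nonneg j
  have : achievementSet xx = Set.range (fun e : ℕ → Bool => ∑' j, (if e j then xx j else 0)) := by
    ext s
    constructor
    · rintro ⟨A, rfl⟩
      refine ⟨fun j => decide (j ∈ A), ?_⟩
      simp only [decide_eq_true_eq, Set.indicator]
    · rintro ⟨e, rfl⟩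
      refine ⟨{j | e j = true}, ?_⟩
      simp only [Set.indicator, Set.mem_ofPred_eq]
      congr 1
      funext j
      congr
  rw [this]
  exact isCompact_range hc

lemma one_le_cthickening (K : ℕ) :
    1 ≤ volume (Metric.cthickening ((1 / 12 : ℝ) ^ K) (achievementSet xx)) := by
  set I : (Fin K → Fin 12) → Set ℝ := fun c => Set.Ico ((val K c : ℝ) / 12 ^ K) ((val K c + 1 : ℝ) / 12 ^ K) with hI
  have h12 : (0 : ℝ) < 12 ^ K := by positivity
  have hdisj : Pairwise (Function.onFun Disjoint I) := by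
    intro c c' hcc
    have hne : val K c ≠ val K c' := fun h => hcc (val_inj K h)
    rw [Function.onFun, Set.disjoint_left]
    rintro y ⟨h1, h2⟩ ⟨h3, h4⟩
    rw [div_le_iff₀ h12] at h1 h3
    rw [lt_div_iff₀ h12] at h2 h4
    have a1 : ((val K c : ℤ) : ℝ) < ((val K c' + 1 : ℤ) : ℝ) := by push_cast; linarith
    have a2 : ((val K c' : ℤ) : ℝ) < ((val K c + 1 : ℤ) : ℝ) := by push_cast; linarith
    have a1' := Int.cast_lt.mp a1
    have a2' := Int.cast_lt.mp a2
    omega
  have hvol : volume (⋃ c, I c) = 1 := by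
    rw [measure_iUnion hdisj (fun c => measurableSet_Ico)]
    have : ∀ c, volume (I c) = ENNReal.ofReal ((1 / 12 : ℝ) ^ K) := by
      intro c
      simp only [hI]
      rw [Real.volume_Ico]
      congr 1
      rw [← sub_div, add_sub_cancel_left, one_div_pow]
    simp_rw [this]
    rw [tsum_fintype, Finset.sum_const, Finset.card_univ, Fintype.card_fun, Fintype.card_fin,
      Fintype.card_fin, nsmul_eq_mul]
    rw [show (((12 ^ K : ℕ)) : ENNReal) = ENNReal.ofReal (12 ^ K) by
      rw [← ENNReal.ofReal_natCast]; push_cast; rfl]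
    rw [← ENNReal.ofReal_mul (by positivity), ← mul_pow]
    norm_num
  rw [← hvol]
  apply measure_mono
  intro y hy
  obtain ⟨c, hc⟩ := Set.mem_iUnion.mp hy
  refine Metric.mem_cthickening_of_dist_le y _ _ _ (val_mem K c) ?_
  obtain ⟨h1, h2⟩ := hc
  rw [Real.dist_eq, abs_of_nonneg (by linarith)]
  rw [add_div] at h2
  rw [one_div_pow]
  linarith

lemma measure_pos : 0 < volume (achievementSet xx) := by
  have h1 := tendsto_measure_cthickening_of_isCompact (μ := (volume : Measure ℝ)) compact_E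
  have h2 : Tendsto (fun K : ℕ => (1 / 12 : ℝ) ^ K) atTop (𝓝 0) :=
    tendsto_pow_atTop_nhds_zero_of_lt_one (by norm_num) (by norm_num)
  have h3 := h1.comp h2
  have h4 : (1 : ENNReal) ≤ volume (achievementSet xx) :=
    ge_of_tendsto h3 (Eventually.of_forall one_le_cthickening)
  exact lt_of_lt_of_le one_pos h4

/-- The negation of Q1: there are `n ≥ 2`, `m ≥ 1` and positive integers `k₁, …, k_m`, none divisible
by `n` (and with greatest common divisor `1`), such that `Σ` has exactly `n` elements and the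
achievement set of `(k₁, …, k_m; 1/n)` has positive Lebesgue measure, while two distinct elements of
`Σ` are congruent modulo `n`, so the residues of `Σ` do not exhaust `{0, …, n-1}`. -/
theorem result : ∃ (n m : ℕ) (hm : 0 < m) (k : Fin m → ℕ), 2 ≤ n ∧ (∀ i, 0 < k i) ∧
    (∀ i, ¬ n ∣ k i) ∧ (Finset.univ.gcd k = 1) ∧ (subsums m k).card = n ∧
    0 < volume (achievementSet (multigeometric n m hm k)) ∧
    (∃ s ∈ subsums m k, ∃ t ∈ subsums m k, s ≠ t ∧ s % n = t % n) ∧
    (subsums m k).image (fun s => s % n) ≠ Finset.range n := by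
  refine ⟨12, 5, by norm_num, kk, by norm_num, by decide, by decide, by decide, by decide,
    measure_pos, ⟨0, by decide, 36, by decide, by norm_num, by norm_num⟩, by decide⟩

end Pool.Agent.Results.MP_ee56ef_an.Main
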